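import Pool.Agent.Helper62.HRT.NoSide

namespace Pool.Agent.Results.MP_0ef687_an.NoGeneric

open Filter Topology

/-- `e(t) = exp(2 π i t)`. -/
noncomputable def e (t : ℝ) : ℂ := Complex.exp ((2 * Real.pi * t : ℝ) * Complex.I)

/-- Equation (1) holds along the orbit of `x0`. -/
def HoldsAlong (α β x0 : ℝ) (f : ℝ → ℂ) : Prop :=
  ∀ N : ℤ, f (x0 + N + 1) * (1 + e (α * (x0 + N))) = f (x0 + N) * (1 + e (β * (x0 + N)))

/-- For a comeagre set of pairs `(α, β)` (both irrational, `α ≠ β`) every `f` that satisfies (1)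
along an orbit and tends to `0` along it vanishes identically on the orbit. -/
theorem result : ∃ G ∈ residual (ℝ × ℝ), ∀ z ∈ G, Irrational z.1 ∧ Irrational z.2 ∧
    z.1 ≠ z.2 ∧ ∀ (x0 : ℝ) (f : ℝ → ℂ), HoldsAlong z.1 z.2 x0 f →
      Tendsto (fun N : ℤ => f (x0 + N)) cofinite (𝓝 0) → ∀ N : ℤ, f (x0 + N) = 0 :=
  Helper62HRT.no_generic

end Pool.Agent.Results.MP_0ef687_an.NoGeneric
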