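import Pool.Agent.Helper62.HRT.Generic

namespace Pool.Agent.Results.MP_0ef687_an.YesDense

open Filter Topology

/-- `e(t) = exp(2 π i t)`. -/
noncomputable def e (t : ℝ) : ℂ := Complex.exp ((2 * Real.pi * t : ℝ) * Complex.I)

/-- Equation (1) holds along the orbit of `x0`. -/
def HoldsAlong (α β x0 : ℝ) (f : ℝ → ℂ) : Prop :=
  ∀ N : ℤ, f (x0 + N + 1) * (1 + e (α * (x0 + N))) = f (x0 + N) * (1 + e (β * (x0 + N)))

/-- There is a comeagre set `A` of irrational numbers such that for every `α ∈ A` the set of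
irrational `β ≠ α` for which Q1 has the answer positive is dense in `ℝ`. -/
theorem result : ∃ A ∈ residual ℝ, ∀ α ∈ A, Irrational α ∧
    ∀ β₀ δ : ℝ, 0 < δ → ∃ β : ℝ, |β - β₀| < δ ∧ Irrational β ∧ α ≠ β ∧
      ∃ x0 ∈ Set.Icc (0 : ℝ) 1, ∃ f : ℝ → ℂ, HoldsAlong α β x0 f ∧
        {N : ℤ | f (x0 + N) ≠ 0}.Infinite ∧
        Tendsto (fun N : ℤ => f (x0 + N)) cofinite (𝓝 0) :=
  Helper62HRT.yes_dense

end Pool.Agent.Results.MP_0ef687_an.YesDense
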